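import Mathlib

/-!
# Homomesy for antichain toggles on fences does not depend on the Coxeter element

Write `x ~ y` if `x < y` or `y < x`. Every element of a fence is a cut element (no element before it
is comparable to an element after it) or simplicial (the elements comparable to it form a chain).
Two permutations are related (`Eqv`) if they are conjugate by a permutation `h` of the antichains
that preserves all sums of all `χ_y` over periods. Rotations of an ordering give related
Coxeter elements, and so does the exchange of two consecutive letters.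
-/

set_option autoImplicit false

namespace Pool.Agent.Results.MP_caa0a9_co.CoxeterIndependence

open scoped Classical

universe u

variable {P : Type u} [PartialOrder P] [Fintype P]

/-- The antichains of the finite poset `P`. -/
abbrev AC (P : Type u) [PartialOrder P] : Type u :=
  {A : Finset P // IsAntichain (· ≤ ·) (A : Set P)}

/-- The antichain toggle at `x`: `A ↦ A ⊕ {x}` if this is an antichain, and `A ↦ A` otherwise. -/
noncomputable def toggle (x : P) (A : AC P) : AC P :=
  if h : IsAntichain (· ≤ ·) ((symmDiff A.1 {x} : Finset P) : Set P) then ⟨symmDiff A.1 {x}, h⟩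
  else A

/-- comparable and distinct -/
def adj (x y : P) : Prop := x < y ∨ y < x

omit [Fintype P] in
lemma adj_symm {x y : P} (h : adj x y) : adj y x := h.symm

omit [Fintype P] in
lemma adj_irrefl (x : P) : ¬ adj x x := fun h => by rcases h with h | h <;> exact lt_irrefl _ h

omit [Fintype P] in
lemma not_adj_of_mem {A : AC P} {x y : P} (hx : x ∈ A.1) (hy : y ∈ A.1) : ¬ adj x y := by
  have hA := A.2
  rintro (h | h)
  · exact hA hx hy h.ne h.le
  · exact hA hy hx h.ne h.le

omit [Fintype P] in
lemma mem_toggle (x y : P) (A : AC P) :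
    y ∈ (toggle x A).1 ↔ (y ≠ x ∧ y ∈ A.1) ∨ (y = x ∧ x ∉ A.1 ∧ ∀ z ∈ A.1, ¬ adj x z) := by
  unfold toggle
  split_ifs with h
  · simp only [Finset.mem_symmDiff, Finset.mem_singleton]
    constructor
    · rintro (⟨h1, h2⟩ | ⟨rfl, h2⟩)
      · exact Or.inl ⟨h2, h1⟩
      · refine Or.inr ⟨rfl, h2, fun z hz hadj => ?_⟩
        have hzy : z ≠ y := fun e => h2 (e ▸ hz)
        have m1 : (y : P) ∈ ((symmDiff A.1 {y} : Finset P) : Set P) :=
          Finset.mem_coe.2 (Finset.mem_symmDiff.2 (Or.inr ⟨Finset.mem_singleton_self y, h2⟩))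
        have m2 : (z : P) ∈ ((symmDiff A.1 {y} : Finset P) : Set P) :=
          Finset.mem_coe.2 (Finset.mem_symmDiff.2
            (Or.inl ⟨hz, fun e => hzy (Finset.mem_singleton.1 e)⟩))
        rcases hadj with h' | h'
        · exact h m1 m2 h'.ne h'.le
        · exact h m2 m1 h'.ne h'.le
    · rintro (⟨h1, h2⟩ | ⟨rfl, h2, -⟩)
      · exact Or.inl ⟨h2, h1⟩
      · exact Or.inr ⟨rfl, h2⟩
  · constructor
    · intro hy
      left
      refine ⟨?_, hy⟩
      rintro rfl
      apply h
      intro a ha b hb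
      have ha' : a ∈ A.1 := by
        rcases Finset.mem_symmDiff.1 (Finset.mem_coe.1 ha) with h1 | h1
        · exact h1.1
        · exact absurd (Finset.mem_singleton.1 h1.1 ▸ hy) h1.2
      have hb' : b ∈ A.1 := by
        rcases Finset.mem_symmDiff.1 (Finset.mem_coe.1 hb) with h1 | h1
        · exact h1.1
        · exact absurd (Finset.mem_singleton.1 h1.1 ▸ hy) h1.2
      exact A.2 ha' hb'
    · rintro (⟨-, h1⟩ | ⟨rfl, h1, h2⟩)
      · exact h1
      · exfalso
        apply h
        intro a ha b hb hab hle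
        have hlt : a < b := lt_of_le_of_ne hle hab
        rcases Finset.mem_symmDiff.1 (Finset.mem_coe.1 ha) with h3 | h3
        · rcases Finset.mem_symmDiff.1 (Finset.mem_coe.1 hb) with h4 | h4
          · exact A.2 h3.1 h4.1 hab hle
          · have := Finset.mem_singleton.1 h4.1
            subst this
            exact h2 a h3.1 (Or.inr hlt)
        · have := Finset.mem_singleton.1 h3.1
          subst this
          rcases Finset.mem_symmDiff.1 (Finset.mem_coe.1 hb) with h4 | h4
          · exact h2 b h4.1 (Or.inl hlt)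
          · exact hab (Finset.mem_singleton.1 h4.1).symm

omit [Fintype P] in
lemma mem_toggle_ne {x y : P} (h : y ≠ x) (A : AC P) : y ∈ (toggle x A).1 ↔ y ∈ A.1 := by
  rw [mem_toggle]; tauto

omit [Fintype P] in
lemma mem_toggle_self (x : P) (A : AC P) :
    x ∈ (toggle x A).1 ↔ x ∉ A.1 ∧ ∀ z ∈ A.1, ¬ adj x z := by
  rw [mem_toggle]; tauto

omit [Fintype P] in
lemma toggle_toggle (x : P) (A : AC P) : toggle x (toggle x A) = A := by
  apply Subtype.ext
  ext y
  by_cases hy : y = x
  · subst hy
    rw [mem_toggle_self, mem_toggle_self]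
    constructor
    · rintro ⟨h1, h2⟩
      by_contra hA
      apply h1
      refine ⟨hA, fun z hz => ?_⟩
      have hzy : z ≠ y := fun e => hA (e ▸ hz)
      exact h2 z ((mem_toggle_ne hzy A).2 hz)
    · intro h
      refine ⟨fun h1 => h1.1 h, fun z hz => ?_⟩
      by_cases hzy : z = y
      · subst hzy; exact adj_irrefl z
      · rw [mem_toggle_ne hzy] at hz
        exact not_adj_of_mem h hz
  · rw [mem_toggle_ne hy, mem_toggle_ne hy]

/-- The toggle as a permutation of the set of antichains. -/
noncomputable def τ (x : P) : Equiv.Perm (AC P) where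
  toFun := toggle x
  invFun := toggle x
  left_inv := toggle_toggle x
  right_inv := toggle_toggle x

/-- The product `τ_{y₁} ⋯ τ_{yₙ}` along a list. -/
noncomputable def W (l : List P) : Equiv.Perm (AC P) := (l.map τ).prod

omit [Fintype P] in
lemma τ_apply (x : P) (A : AC P) : τ x A = toggle x A := rfl

omit [Fintype P] in
lemma τ_mul_self (x : P) : τ x * τ x = 1 := Equiv.ext (toggle_toggle x)

omit [Fintype P] in
lemma τ_inv (x : P) : (τ x)⁻¹ = τ x := inv_eq_of_mul_eq_one_left (τ_mul_self x)

omit [Fintype P] in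
lemma toggle_congr {x : P} {A B : AC P} (h : ∀ z, z = x ∨ adj x z → (z ∈ A.1 ↔ z ∈ B.1)) :
    x ∈ (toggle x A).1 ↔ x ∈ (toggle x B).1 := by
  rw [mem_toggle_self, mem_toggle_self, h x (Or.inl rfl)]
  constructor
  · rintro ⟨h1, h2⟩
    exact ⟨h1, fun z hz ha => h2 z ((h z (Or.inr ha)).2 hz) ha⟩
  · rintro ⟨h1, h2⟩
    exact ⟨h1, fun z hz ha => h2 z ((h z (Or.inr ha)).1 hz) ha⟩

omit [Fintype P] in
lemma toggle_fix {x z : P} {A : AC P} (hz : z ∈ A.1) (h : adj x z) : toggle x A = A := by
  apply Subtype.ext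
  ext y
  by_cases hy : y = x
  · subst hy
    rw [mem_toggle_self]
    constructor
    · rintro ⟨-, h2⟩
      exact absurd h (h2 z hz)
    · intro h3
      exact absurd h (not_adj_of_mem h3 hz)
  · rw [mem_toggle_ne hy]

omit [Fintype P] in
lemma τ_comm {x y : P} (h : ¬ adj x y) : Commute (τ x) (τ y) := by
  by_cases hxy : x = y
  · subst hxy; exact Commute.refl _
  have aux : ∀ x y : P, x ≠ y → ¬ adj x y → ∀ A : AC P,
      (x ∈ (toggle x (toggle y A)).1 ↔ x ∈ (toggle y (toggle x A)).1) := by
    intro x y hxy h A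
    rw [mem_toggle_ne hxy]
    apply toggle_congr
    rintro z (rfl | hz)
    · exact mem_toggle_ne hxy A
    · exact mem_toggle_ne (fun e : z = y => h (e ▸ hz)) A
  refine Equiv.ext fun A => Subtype.ext ?_
  ext z
  change z ∈ (toggle x (toggle y A)).1 ↔ z ∈ (toggle y (toggle x A)).1
  by_cases hzx : z = x
  · subst hzx
    exact aux z y hxy h A
  · by_cases hzy : z = y
    · subst hzy
      exact (aux z x (Ne.symm hxy) (fun e => h (adj_symm e)) A).symm
    · rw [mem_toggle_ne hzx, mem_toggle_ne hzy, mem_toggle_ne hzy, mem_toggle_ne hzx]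

omit [Fintype P] in
lemma W_nil : W ([] : List P) = 1 := rfl

omit [Fintype P] in
lemma W_cons (x : P) (l : List P) : W (x :: l) = τ x * W l := by simp [W]

omit [Fintype P] in
lemma W_append (l l' : List P) : W (l ++ l') = W l * W l' := by simp [W]

omit [Fintype P] in
lemma commute_W {c : Equiv.Perm (AC P)} {l : List P} (h : ∀ z ∈ l, Commute c (τ z)) :
    Commute c (W l) := by
  induction l with
  | nil => exact Commute.one_right c
  | cons x l ih =>
    rw [W_cons]
    exact (h x List.mem_cons_self).mul_right (ih fun z hz => h z (List.mem_cons_of_mem x hz))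

omit [Fintype P] in
lemma mem_W {y : P} {l : List P} (h : y ∉ l) (A : AC P) : y ∈ (W l A).1 ↔ y ∈ A.1 := by
  induction l with
  | nil => rfl
  | cons x l ih =>
    have hyx : y ≠ x := fun e => h (by rw [e]; exact List.mem_cons_self)
    rw [W_cons, Equiv.Perm.mul_apply, τ_apply, mem_toggle_ne hyx,
      ih fun hy => h (List.mem_cons_of_mem x hy)]

/-- The elements comparable to `i` form a chain. -/
def Simplicial (i : P) : Prop := ∀ r s, adj i r → adj i s → r ≠ s → adj r s

omit [Fintype P] in
lemma triple_fix {i b : P} (hi : Simplicial i) (hb : adj i b) {A : AC P} (h1 : i ∉ A.1)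
    (h2 : b ∉ A.1) : toggle i (toggle b (toggle i A)) = A := by
  have hib : i ≠ b := fun e => adj_irrefl b (e ▸ hb)
  -- either `i` is put into the antichain or some neighbour of `i` is there
  have key : i ∈ (toggle i A).1 ∨ ∃ z ∈ A.1, adj i z := by
    by_cases h : i ∈ (toggle i A).1
    · exact Or.inl h
    · right
      rw [mem_toggle_self] at h
      by_contra hcon
      push Not at hcon
      exact h ⟨h1, hcon⟩
  apply Subtype.ext
  ext z
  by_cases hzi : z = i
  · subst hzi
    rw [mem_toggle_self]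
    refine ⟨fun h => ?_, fun h => absurd h h1⟩
    exfalso
    rcases key with h3 | ⟨y, hy, hya⟩
    · exact h.1 ((mem_toggle_ne hib _).2 h3)
    · have hyz : y ≠ z := fun e => h1 (e ▸ hy)
      have hyb : y ≠ b := fun e => h2 (e ▸ hy)
      exact h.2 y ((mem_toggle_ne hyb _).2 ((mem_toggle_ne hyz _).2 hy)) hya
  · rw [mem_toggle_ne hzi]
    by_cases hzb : z = b
    · subst hzb
      rw [mem_toggle_self]
      refine ⟨fun h => ?_, fun h => absurd h h2⟩
      exfalso
      rcases key with h3 | ⟨y, hy, hya⟩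
      · exact h.2 i h3 (adj_symm hb)
      · have hyi : y ≠ i := fun e => h1 (e ▸ hy)
        have hyb : y ≠ z := fun e => h2 (e ▸ hy)
        exact h.2 y ((mem_toggle_ne hyi _).2 hy) (hi z y hb hya hyb.symm)
    · rw [mem_toggle_ne hzb, mem_toggle_ne hzi]

omit [Fintype P] in
lemma triple_comm {i b r : P} (hi : Simplicial i) (hb : adj i b) (hr : adj i r)
    (hrb : adj b r) : Commute (τ i * τ b * τ i) (τ r) := by
  have hri : r ≠ i := fun e => adj_irrefl i (e ▸ hr)
  have hbr : r ≠ b := fun e => adj_irrefl b (e ▸ hrb)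
  set T := τ i * τ b * τ i with hT
  have hTT : ∀ A, T (T A) = A := by
    intro A
    have : T * T = 1 := by
      rw [hT]
      calc τ i * τ b * τ i * (τ i * τ b * τ i) = τ i * τ b * (τ i * τ i) * τ b * τ i := by group
        _ = τ i * (τ b * τ b) * τ i := by rw [τ_mul_self]; group
        _ = 1 := by rw [τ_mul_self, mul_one, τ_mul_self]
    exact congrArg (fun f : Equiv.Perm (AC P) => f A) this
  have h1 : ∀ A : AC P, ¬ (i ∈ A.1 ∨ b ∈ A.1) → T A = A := by
    intro A hA
    push Not at hA
    exact triple_fix hi hb hA.1 hA.2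
  have h2 : ∀ A : AC P, (i ∈ A.1 ∨ b ∈ A.1) → toggle r A = A := by
    rintro A (hA | hA)
    · exact toggle_fix hA (adj_symm hr)
    · exact toggle_fix hA (adj_symm hrb)
  refine Equiv.ext fun A => ?_
  change T (toggle r A) = toggle r (T A)
  by_cases hA : i ∈ A.1 ∨ b ∈ A.1
  · have h3 : i ∈ (T A).1 ∨ b ∈ (T A).1 := by
      by_contra hcon
      have h4 := h1 _ hcon
      rw [hTT] at h4
      exact hcon (h4 ▸ hA)
    rw [h2 A hA, h2 _ h3]
  · have h3 : ¬ (i ∈ (toggle r A).1 ∨ b ∈ (toggle r A).1) := by
      rw [mem_toggle_ne (Ne.symm hri), mem_toggle_ne (Ne.symm hbr)]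
      exact hA
    rw [h1 A hA, h1 _ h3]

/-- The indicator function of `y`. -/
noncomputable def chi (y : P) (A : AC P) : ℝ := if y ∈ A.1 then 1 else 0

omit [Fintype P] in
lemma chi_congr {y : P} {A B : AC P} (h : y ∈ A.1 ↔ y ∈ B.1) : chi y A = chi y B := by
  unfold chi; simp only [h]

lemma point {i : P} (hi : Simplicial i) (B : AC P) :
    chi i (toggle i B) + chi i B + ∑ r ∈ Finset.univ.filter (fun r => adj i r), chi r B = 1 := by
  by_cases h1 : i ∈ B.1
  · have e1 : chi i (toggle i B) = 0 := by
      unfold chi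
      rw [if_neg]
      rw [mem_toggle_self]
      exact fun h => h.1 h1
    have e2 : ∑ r ∈ Finset.univ.filter (fun r => adj i r), chi r B = 0 := by
      apply Finset.sum_eq_zero
      intro r hr
      unfold chi
      rw [if_neg]
      intro hrB
      exact not_adj_of_mem h1 hrB (Finset.mem_filter.1 hr).2
    rw [e1, e2]
    simp [chi, h1]
  · by_cases h2 : ∃ r ∈ B.1, adj i r
    · obtain ⟨r, hrB, hr⟩ := h2
      have e1 : chi i (toggle i B) = 0 := by
        unfold chi
        rw [if_neg]
        rw [mem_toggle_self]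
        exact fun h => h.2 r hrB hr
      have e2 : ∑ r ∈ Finset.univ.filter (fun r => adj i r), chi r B = 1 := by
        rw [Finset.sum_eq_single r]
        · simp [chi, hrB]
        · intro s hs hsr
          unfold chi
          rw [if_neg]
          intro hsB
          exact not_adj_of_mem hsB hrB (hi s r (Finset.mem_filter.1 hs).2 hr hsr)
        · intro h
          exact absurd (Finset.mem_filter.2 ⟨Finset.mem_univ r, hr⟩) h
      rw [e1, e2]
      simp [chi, h1]
    · push Not at h2
      have e1 : chi i (toggle i B) = 1 := by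
        unfold chi
        rw [if_pos]
        rw [mem_toggle_self]
        exact ⟨h1, h2⟩
      have e2 : ∑ r ∈ Finset.univ.filter (fun r => adj i r), chi r B = 0 := by
        apply Finset.sum_eq_zero
        intro r hr
        unfold chi
        rw [if_neg]
        intro hrB
        exact h2 r hrB (Finset.mem_filter.1 hr).2
      rw [e1, e2]
      simp [chi, h1]

/-- The two permutations are conjugate by some `h` which preserves the sums of all `χ_y` over
periods. -/
def Eqv (w w' : Equiv.Perm (AC P)) : Prop :=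
  ∃ h : Equiv.Perm (AC P), w' = h * w * h⁻¹ ∧ ∀ (N : ℕ) (A : AC P), (w ^ N) A = A → ∀ y,
    ∑ k ∈ Finset.range N, chi y (h ((w ^ k) A)) = ∑ k ∈ Finset.range N, chi y ((w ^ k) A)

omit [Fintype P] in
lemma conj_pow_apply {w w' h : Equiv.Perm (AC P)} (hw : w' = h * w * h⁻¹) (k : ℕ) (A : AC P) :
    (w' ^ k) (h A) = h ((w ^ k) A) := by
  rw [hw, conj_pow]
  simp

omit [Fintype P] in
lemma Eqv.refl (w : Equiv.Perm (AC P)) : Eqv w w := ⟨1, by simp, fun N A _ y => by simp⟩

omit [Fintype P] in
lemma Eqv.symm {w w' : Equiv.Perm (AC P)} (h : Eqv w w') : Eqv w' w := by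
  obtain ⟨h, hw, hs⟩ := h
  have hw2 : w = h⁻¹ * w' * (h⁻¹)⁻¹ := by rw [hw]; group
  refine ⟨h⁻¹, hw2, fun N A hA y => ?_⟩
  have e : ∀ k, (w ^ k) (h⁻¹ A) = h⁻¹ ((w' ^ k) A) := fun k => conj_pow_apply hw2 k A
  have h1 := hs N (h⁻¹ A) (by rw [e, hA]) y
  have e2 : ∀ k, h (h⁻¹ ((w' ^ k) A)) = (w' ^ k) A := fun k => by simp
  simp only [e, e2] at h1
  exact h1.symm

omit [Fintype P] in
lemma Eqv.trans {w w' w'' : Equiv.Perm (AC P)} (h1 : Eqv w w') (h2 : Eqv w' w'') :
    Eqv w w'' := by
  obtain ⟨h, hw, hs⟩ := h1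
  obtain ⟨g, hg, gs⟩ := h2
  refine ⟨g * h, by rw [hg, hw]; group, fun N A hA y => ?_⟩
  have e := fun k => conj_pow_apply hw k A
  have h3 := gs N (h A) (by rw [e, hA]) y
  simp only [e] at h3
  simp only [Equiv.Perm.mul_apply]
  rw [h3, hs N A hA y]

omit [Fintype P] in
lemma tele (w : Equiv.Perm (AC P)) (N : ℕ) (A : AC P) (hA : (w ^ N) A = A) (g : AC P → ℝ) :
    ∑ k ∈ Finset.range N, g (w ((w ^ k) A)) = ∑ k ∈ Finset.range N, g ((w ^ k) A) := by
  have h1 := Finset.sum_range_succ (fun k => g ((w ^ k) A)) N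
  have h2 := Finset.sum_range_succ' (fun k => g ((w ^ k) A)) N
  simp only [pow_succ', Equiv.Perm.mul_apply, pow_zero, Equiv.Perm.one_apply] at h2
  rw [h1, hA] at h2
  linarith

omit [Fintype P] in
/-- Rotation. -/
lemma rot {x : P} {l : List P} (hx : x ∉ l) : Eqv (W (x :: l)) (W (l ++ [x])) := by
  have hw : W (l ++ [x]) = τ x * W (x :: l) * (τ x)⁻¹ := by
    rw [W_append, W_cons, W_cons, W_nil, mul_one, ← mul_assoc, τ_mul_self, one_mul, τ_inv]
  refine ⟨τ x, hw, fun N A hA y => ?_⟩
  by_cases hy : y = x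
  · subst hy
    rw [← tele _ N A hA (fun B => chi y (τ y B))]
    apply Finset.sum_congr rfl
    intro k _
    apply chi_congr
    rw [W_cons, Equiv.Perm.mul_apply, τ_apply, τ_apply, toggle_toggle, mem_W hx]
  · apply Finset.sum_congr rfl
    intro k _
    exact chi_congr (mem_toggle_ne hy _)

omit [Fintype P] in
lemma rotate (a b : List P) (h : (a ++ b).Nodup) : Eqv (W (a ++ b)) (W (b ++ a)) := by
  induction a generalizing b with
  | nil => simpa using Eqv.refl _
  | cons x a ih =>
    have h1 : x ∉ a ++ b := (List.nodup_cons.1 h).1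
    have h2 := rot h1
    have h3 : (a ++ (b ++ [x])).Nodup := by
      have : (x :: (a ++ b)).Perm (a ++ b ++ [x]) := (List.perm_append_singleton x _).symm
      rw [← List.append_assoc]
      exact this.nodup_iff.1 h
    have h4 := ih (b ++ [x]) h3
    rw [List.append_assoc] at h2 h4
    exact h2.trans h4

/-- The linear relation at a simplicial element. -/
lemma lin {i : P} (hi : Simplicial i) (l1 l2 : List P) (hnd : (l1 ++ i :: l2).Nodup)
    (N : ℕ) (A : AC P)
    (hA : (W (l1 ++ i :: l2) ^ N) A = A) :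
    2 * ∑ k ∈ Finset.range N, chi i ((W (l1 ++ i :: l2) ^ k) A) +
      ∑ r ∈ Finset.univ.filter (fun r => adj i r),
        ∑ k ∈ Finset.range N, chi r ((W (l1 ++ i :: l2) ^ k) A) = N := by
  set w := W (l1 ++ i :: l2) with hw
  have hnd' := hnd
  rw [List.nodup_append] at hnd'
  obtain ⟨n1, n2, n3⟩ := hnd'
  rw [List.nodup_cons] at n2
  have hi1 : i ∉ l1 := fun h => n3 i h i List.mem_cons_self rfl
  have hi2 : i ∉ l2 := n2.1
  have hwA : ∀ A, w A = W l1 (toggle i (W l2 A)) := by
    intro A
    rw [hw, W_append, W_cons]; rfl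
  -- the state before the toggle at `i`
  have e1 : ∀ k, chi i (W l2 ((w ^ k) A)) = chi i ((w ^ k) A) := fun k =>
    chi_congr (mem_W hi2 _)
  have e2 : ∀ k, chi i (toggle i (W l2 ((w ^ k) A))) = chi i (w ((w ^ k) A)) := by
    intro k
    apply chi_congr
    rw [hwA, mem_W hi1]
  have e3 : ∀ r, adj i r → ∑ k ∈ Finset.range N, chi r (W l2 ((w ^ k) A)) =
      ∑ k ∈ Finset.range N, chi r ((w ^ k) A) := by
    intro r hr
    have hri : r ≠ i := fun e => adj_irrefl i (e ▸ hr)
    by_cases hr2 : r ∈ l2
    · have hr1 : r ∉ l1 := fun h => n3 r h r (List.mem_cons_of_mem _ hr2) rfl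
      rw [← tele w N A hA (chi r)]
      apply Finset.sum_congr rfl
      intro k _
      apply chi_congr
      rw [hwA, mem_W hr1, mem_toggle_ne hri]
    · apply Finset.sum_congr rfl
      intro k _
      exact chi_congr (mem_W hr2 _)
  have hp : ∀ k, chi i (w ((w ^ k) A)) + chi i ((w ^ k) A) +
      ∑ r ∈ Finset.univ.filter (fun r => adj i r), chi r (W l2 ((w ^ k) A)) = 1 := by
    intro k
    rw [← e1 k, ← e2 k]
    exact point hi _
  have hsum : ∑ k ∈ Finset.range N, (chi i (w ((w ^ k) A)) + chi i ((w ^ k) A) +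
      ∑ r ∈ Finset.univ.filter (fun r => adj i r), chi r (W l2 ((w ^ k) A))) = N := by
    rw [Finset.sum_congr rfl (fun k _ => hp k)]
    simp
  rw [Finset.sum_add_distrib, Finset.sum_add_distrib, tele w N A hA, Finset.sum_comm,
    Finset.sum_congr rfl (fun r hr => e3 r (Finset.mem_filter.1 hr).2)] at hsum
  linarith

/-- A simplicial letter jumps over a block. -/
lemma jump {i : P} (hi : Simplicial i) (α β : List P) (hnd : (α ++ β ++ [i]).Nodup)
    (hc : Commute (τ i * W β * τ i) (W α)) :
    Eqv (W (α ++ β ++ [i])) (W (α ++ [i] ++ β)) := by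
  set H := τ i * W β * τ i with hH
  have ew : W (α ++ β ++ [i]) = W α * W β * τ i := by
    rw [W_append, W_append, W_cons, W_nil, mul_one]
  have ew' : W (α ++ [i] ++ β) = W α * τ i * W β := by
    rw [W_append, W_append, W_cons, W_nil, mul_one]
  have hw : W (α ++ [i] ++ β) = H * W (α ++ β ++ [i]) * H⁻¹ := by
    rw [eq_mul_inv_iff_mul_eq, ew, ew']
    calc W α * τ i * W β * H = W α * (τ i * W β * τ i) * W β * τ i := by rw [hH]; group
      _ = H * (W α * W β * τ i) := by rw [← hH, ← hc.eq]; group
  have hperm : (α ++ β ++ [i]).Perm (α ++ [i] ++ β) := by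
    rw [List.append_assoc, List.append_assoc]
    exact (List.perm_append_comm).append_left α
  have hnd2 : (α ++ [i] ++ β).Nodup := hperm.nodup_iff.1 hnd
  have hdisj : ∀ y ∈ β, y ∉ α := by
    intro y hy hy2
    rw [List.append_assoc, List.nodup_append] at hnd
    exact hnd.2.2 y hy2 y (List.mem_append_left _ hy) rfl
  refine ⟨H, hw, fun N A hA => ?_⟩
  have hne : ∀ y, y ≠ i → ∑ k ∈ Finset.range N, chi y (H ((W (α ++ β ++ [i]) ^ k) A)) =
      ∑ k ∈ Finset.range N, chi y ((W (α ++ β ++ [i]) ^ k) A) := by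
    intro y hy
    by_cases hyb : y ∈ β
    · rw [← tele _ N A hA (chi y)]
      apply Finset.sum_congr rfl
      intro k _
      apply chi_congr
      rw [ew, hH]
      simp only [Equiv.Perm.mul_apply]
      rw [mem_W (hdisj y hyb), τ_apply, mem_toggle_ne hy]
    · apply Finset.sum_congr rfl
      intro k _
      apply chi_congr
      rw [hH]
      simp only [Equiv.Perm.mul_apply]
      rw [τ_apply, mem_toggle_ne hy, mem_W hyb, τ_apply, mem_toggle_ne hy]
  intro y
  by_cases hy : y = i
  · subst hy
    have l1 := lin hi (α ++ β) [] hnd N A hA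
    have hA2 : (W (α ++ [y] ++ β) ^ N) (H A) = H A := by
      rw [conj_pow_apply hw, hA]
    have e0 : α ++ [y] ++ β = α ++ y :: β := by simp
    have l2 := lin hi α β (by rw [← e0]; exact hnd2) N (H A)
      (by rw [← e0]; exact hA2)
    rw [← e0] at l2
    simp only [conj_pow_apply hw] at l2
    have e1 : ∑ r ∈ Finset.univ.filter (fun r => adj y r),
          ∑ k ∈ Finset.range N, chi r (H ((W (α ++ β ++ [y]) ^ k) A)) =
        ∑ r ∈ Finset.univ.filter (fun r => adj y r),
          ∑ k ∈ Finset.range N, chi r ((W (α ++ β ++ [y]) ^ k) A) := by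
      apply Finset.sum_congr rfl
      intro r hr
      exact hne r (fun e => adj_irrefl y (e ▸ (Finset.mem_filter.1 hr).2))
    linarith
  · exact hne y hy

omit [Fintype P] in
lemma W_filter (p : P → Prop) [DecidablePred p] (m : List P) (h : ∀ x ∈ m, ∀ y ∈ m, p x → ¬ p y → ¬ adj x y) :
    W m = W (m.filter (fun x => decide (p x))) * W (m.filter (fun x => !decide (p x))) := by
  induction m with
  | nil => simp [W_nil]
  | cons x m ih =>
    have ih' := ih (fun a ha b hb => h a (List.mem_cons_of_mem x ha) b (List.mem_cons_of_mem x hb))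
    by_cases hx : p x
    · rw [List.filter_cons_of_pos (by simpa using hx), List.filter_cons_of_neg (by simpa using hx),
        W_cons, W_cons, ih', mul_assoc]
    · rw [List.filter_cons_of_neg (by simpa using hx), List.filter_cons_of_pos (by simpa using hx),
        W_cons, W_cons, ih', ← mul_assoc, ← mul_assoc]
      congr 1
      have : Commute (τ x) (W (m.filter (fun x => decide (p x)))) := by
        apply commute_W
        intro z hz
        rw [List.mem_filter] at hz
        apply τ_comm
        intro hadj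
        exact h z (List.mem_cons_of_mem x hz.1) x List.mem_cons_self (by simpa using hz.2) hx
          (adj_symm hadj)
      exact this.eq

/-- No element before `b` is comparable to an element after `b`. -/
def Cut (pos : P → ℕ) (b : P) : Prop := ∀ u w, pos u < pos b → pos b < pos w → ¬ adj u w

/-- The combinatorial properties of fences which are used. -/
structure Fencelike (pos : P → ℕ) : Prop where
  inj : Function.Injective pos
  p1 : ∀ u v w, pos u < pos v → pos v < pos w → adj u w → adj u v ∧ adj v w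
  p4 : ∀ b, Cut pos b ∨
    ∀ u w, pos u < pos b → pos b < pos w → adj u b → adj b w → adj u w

section fl

variable {pos : P → ℕ} (F : Fencelike pos)
include F

omit [Fintype P] in
lemma same_side {b r s : P} (hrs : r ≠ s) (hr : adj b r) (hs : adj b s)
    (h : (pos r < pos b ∧ pos s < pos b) ∨ (pos b < pos r ∧ pos b < pos s)) : adj r s := by
  have hne : pos r ≠ pos s := fun e => hrs (F.inj e)
  rcases h with ⟨h1, h2⟩ | ⟨h1, h2⟩
  · rcases lt_or_gt_of_ne hne with h3 | h3
    · exact (F.p1 r s b h3 h2 (adj_symm hr)).1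
    · exact adj_symm (F.p1 s r b h3 h1 (adj_symm hs)).1
  · rcases lt_or_gt_of_ne hne with h3 | h3
    · exact (F.p1 b r s h1 h3 hs).2
    · exact adj_symm (F.p1 b s r h2 h3 hr).2

omit [Fintype P] in
lemma cut_or_simplicial (b : P) : Cut pos b ∨ Simplicial b := by
  rcases F.p4 b with h | h
  · exact Or.inl h
  · right
    intro r s hr hs hrs
    have h1 : pos r ≠ pos b := fun e => adj_irrefl b ((F.inj e) ▸ hr)
    have h2 : pos s ≠ pos b := fun e => adj_irrefl b ((F.inj e) ▸ hs)
    rcases lt_or_gt_of_ne h1 with h3 | h3 <;> rcases lt_or_gt_of_ne h2 with h4 | h4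
    · exact same_side F hrs hr hs (Or.inl ⟨h3, h4⟩)
    · exact h r s h3 h4 (adj_symm hr) hs
    · exact adj_symm (h s r h4 h3 (adj_symm hs) hr)
    · exact same_side F hrs hr hs (Or.inr ⟨h3, h4⟩)

lemma case2 {i b : P} (hi : Simplicial i) (hb : adj i b) (m : List P)
    (hnd : (b :: i :: m).Nodup) : Eqv (W (b :: i :: m)) (W (i :: b :: m)) := by
  have hib : i ≠ b := fun e => adj_irrefl b (e ▸ hb)
  have hpib : pos i ≠ pos b := fun e => hib (F.inj e)
  have hbm : b ∉ m := fun h => (List.nodup_cons.1 hnd).1 (List.mem_cons_of_mem i h)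
  have him : i ∉ m := (List.nodup_cons.1 (List.nodup_cons.1 hnd).2).1
  -- the letters beyond `b`
  let p : P → Prop := fun v => Cut pos b ∧
    ((pos i < pos b ∧ pos b < pos v) ∨ (pos b < pos i ∧ pos v < pos b))
  have pa : ∀ v, p v → ¬ adj i v := by
    rintro v ⟨hc, ⟨h1, h2⟩ | ⟨h1, h2⟩⟩ h
    · exact hc i v h1 h2 h
    · exact hc v i h2 h1 (adj_symm h)
  have pb : ∀ v r, p v → ¬ p r → r ≠ b → ¬ adj v r := by
    intro v r hv hr hrb h
    have hne : pos r ≠ pos b := fun e => hrb (F.inj e)
    obtain ⟨hc, ⟨h1, h2⟩ | ⟨h1, h2⟩⟩ := hv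
    · have h3 : pos r < pos b := by
        by_contra h4
        exact hr ⟨hc, Or.inl ⟨h1, by omega⟩⟩
      exact hc r v h3 h2 (adj_symm h)
    · have h3 : pos b < pos r := by
        by_contra h4
        exact hr ⟨hc, Or.inr ⟨h1, by omega⟩⟩
      exact hc v r h2 h3 h
  have pc : ∀ r, ¬ p r → r ≠ i → adj b r → adj i r := by
    intro r hr hri hbr
    have hne : pos r ≠ pos b := fun e => adj_irrefl b ((F.inj e) ▸ hbr)
    rcases cut_or_simplicial F b with hc | hs
    · have h5 : (pos i < pos b ∧ pos r < pos b) ∨ (pos b < pos i ∧ pos b < pos r) := by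
        rcases lt_or_gt_of_ne hpib with h1 | h1
        · left
          refine ⟨h1, ?_⟩
          by_contra h4
          exact hr ⟨hc, Or.inl ⟨h1, by omega⟩⟩
        · right
          refine ⟨h1, ?_⟩
          by_contra h4
          exact hr ⟨hc, Or.inr ⟨h1, by omega⟩⟩
      exact same_side F (Ne.symm hri) (adj_symm hb) hbr h5
    · exact hs i r (adj_symm hb) hbr (Ne.symm hri)
  set m2 := m.filter (fun x => decide (p x)) with hm2
  set ma := m.filter (fun x => !decide (p x)) with hma
  have hm2' : ∀ z ∈ m2, z ∈ m ∧ p z := by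
    intro z hz
    rw [hm2, List.mem_filter] at hz
    exact ⟨hz.1, by simpa using hz.2⟩
  have hma' : ∀ z ∈ ma, z ∈ m ∧ ¬ p z := by
    intro z hz
    rw [hma, List.mem_filter] at hz
    exact ⟨hz.1, by simpa using hz.2⟩
  have hWm : W m = W m2 * W ma := W_filter p m fun x hx y hy h1 h2 =>
    pb x y h1 h2 (fun e => hbm (e ▸ hy))
  have ci2 : Commute (τ i) (W m2) := commute_W fun z hz => τ_comm (pa z (hm2' z hz).2)
  have hperm : (m2 ++ ma).Perm m := List.filter_append_perm _ m
  -- the two words, up to commutations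
  have e1 : W (b :: i :: m) = W ((b :: m2) ++ [i] ++ ma) := by
    rw [W_cons, W_cons, hWm, W_append, W_append, W_cons, W_cons, W_nil, mul_one, mul_assoc (τ b),
      ← ci2.eq]
    simp only [mul_assoc]
  have e2 : W (i :: b :: m) = W ([i] ++ (b :: m2) ++ ma) := by
    rw [W_cons, W_cons, hWm, W_append, W_append, W_cons, W_cons, W_nil, mul_one]
    simp only [mul_assoc]
  have n0 : (ma ++ (b :: m2) ++ [i]).Nodup := by
    have h1 : (b :: i :: m).Perm (ma ++ (b :: m2) ++ [i]) := by
      have q1 : (b :: i :: m).Perm (b :: i :: (m2 ++ ma)) := (hperm.symm.cons i).cons b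
      have q2 : (b :: i :: (m2 ++ ma)).Perm (i :: b :: (m2 ++ ma)) := List.Perm.swap _ _ _
      have q3 : (i :: b :: (m2 ++ ma)).Perm (i :: ((b :: m2) ++ ma)) := List.Perm.refl _
      have q4 : (i :: ((b :: m2) ++ ma)).Perm (i :: (ma ++ (b :: m2))) :=
        List.perm_append_comm.cons i
      have q5 : (i :: (ma ++ (b :: m2))).Perm (ma ++ (b :: m2) ++ [i]) :=
        (List.perm_append_singleton i _).symm
      exact q1.trans (q2.trans (q3.trans (q4.trans q5)))
    exact h1.nodup_iff.1 hnd
  have hc : Commute (τ i * W (b :: m2) * τ i) (W ma) := by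
    have e3 : τ i * W (b :: m2) * τ i = (τ i * τ b * τ i) * W m2 := by
      rw [W_cons]
      calc τ i * (τ b * W m2) * τ i = τ i * τ b * (W m2 * τ i) := by group
        _ = τ i * τ b * (τ i * W m2) := by rw [ci2.eq]
        _ = _ := by group
    rw [e3]
    apply commute_W
    intro r hr
    obtain ⟨hrm, hpr⟩ := hma' r hr
    have hrb : r ≠ b := fun e => hbm (e ▸ hrm)
    have hri : r ≠ i := fun e => him (e ▸ hrm)
    have c2 : Commute (W m2) (τ r) :=
      (commute_W (c := τ r) fun z hz =>
        τ_comm (fun h => pb z r (hm2' z hz).2 hpr hrb (adj_symm h))).symm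
    refine Commute.mul_left ?_ c2
    by_cases h1 : adj i r
    · exact triple_comm hi hb h1 (hi b r hb h1 (Ne.symm hrb))
    · have h2 : ¬ adj b r := fun h => h1 (pc r hpr hri h)
      exact ((τ_comm h1).mul_left (τ_comm h2)).mul_left (τ_comm h1)
  rw [e1, e2]
  have n1 : (ma ++ [i] ++ (b :: m2)).Nodup := by
    have h1 : (ma ++ (b :: m2) ++ [i]).Perm (ma ++ [i] ++ (b :: m2)) := by
      rw [List.append_assoc, List.append_assoc]
      exact (List.perm_append_comm).append_left ma
    exact h1.nodup_iff.1 n0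
  have r1 : Eqv (W ((b :: m2) ++ [i] ++ ma)) (W (ma ++ ((b :: m2) ++ [i]))) := by
    apply rotate
    have h1 : (ma ++ ((b :: m2) ++ [i])).Perm ((b :: m2) ++ [i] ++ ma) := List.perm_append_comm
    apply h1.nodup_iff.1
    rw [← List.append_assoc]
    exact n0
  have r2 : Eqv (W (ma ++ ([i] ++ (b :: m2)))) (W (([i] ++ (b :: m2)) ++ ma)) := by
    apply rotate
    rw [← List.append_assoc]
    exact n1
  have j := jump hi ma (b :: m2) n0 hc
  rw [List.append_assoc ma, List.append_assoc ma] at j
  exact r1.trans (j.trans r2)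

omit F in
omit [Fintype P] in
/-- The letters may be exchanged wherever they are neighbours. -/
lemma swappable_of {a b : P} (h : ∀ m : List P, (a :: b :: m).Nodup →
    Eqv (W (a :: b :: m)) (W (b :: a :: m))) :
    ∀ U V : List P, (U ++ a :: b :: V).Nodup →
      Eqv (W (U ++ a :: b :: V)) (W (U ++ b :: a :: V)) := by
  intro U V hnd
  have hp : (U ++ a :: b :: V).Perm (U ++ b :: a :: V) :=
    (List.Perm.swap b a V).append_left U
  have n1 : (a :: b :: (V ++ U)).Nodup := by
    have : (U ++ a :: b :: V).Perm (a :: b :: (V ++ U)) := List.perm_append_comm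
    exact this.nodup_iff.1 hnd
  have r1 : Eqv (W (U ++ a :: b :: V)) (W (a :: b :: (V ++ U))) := rotate U (a :: b :: V) hnd
  have r2 : Eqv (W (U ++ b :: a :: V)) (W (b :: a :: (V ++ U))) :=
    rotate U (b :: a :: V) (hp.nodup_iff.1 hnd)
  exact r1.trans ((h _ n1).trans r2.symm)

end fl

/-- The letters may be exchanged wherever they are neighbours. -/
def Swappable (a b : P) : Prop := ∀ U V : List P, (U ++ a :: b :: V).Nodup →
      Eqv (W (U ++ a :: b :: V)) (W (U ++ b :: a :: V))

omit [Fintype P] in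
lemma move1 {a : P} (l2 : List P) (h : ∀ b ∈ l2, Swappable a b) : ∀ U V : List P,
    (U ++ a :: (l2 ++ V)).Nodup → Eqv (W (U ++ a :: (l2 ++ V))) (W (U ++ (l2 ++ a :: V))) := by
  induction l2 with
  | nil => intro U V _; exact Eqv.refl _
  | cons b l2 ih =>
    intro U V hnd
    have h1 := h b List.mem_cons_self U (l2 ++ V) hnd
    have hp : (U ++ a :: b :: (l2 ++ V)).Perm (U ++ [b] ++ a :: (l2 ++ V)) := by
      rw [List.append_assoc]
      exact (List.Perm.swap b a _).append_left U
    have h2 := ih (fun c hc => h c (List.mem_cons_of_mem b hc)) (U ++ [b]) V (hp.nodup_iff.1 hnd)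
    simp only [List.append_assoc, List.cons_append, List.nil_append] at h2 ⊢
    exact h1.trans h2

omit [Fintype P] in
lemma move (l1 l2 : List P) (h : ∀ a ∈ l1, ∀ b ∈ l2, Swappable a b) : ∀ U V : List P,
    (U ++ (l1 ++ (l2 ++ V))).Nodup →
      Eqv (W (U ++ (l1 ++ (l2 ++ V)))) (W (U ++ (l2 ++ (l1 ++ V)))) := by
  induction l1 with
  | nil => intro U V _; exact Eqv.refl _
  | cons a l1 ih =>
    intro U V hnd
    have h1 := ih (fun c hc => h c (List.mem_cons_of_mem a hc)) (U ++ [a]) V (by simpa using hnd)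
    have hp : (U ++ (a :: l1 ++ (l2 ++ V))).Perm (U ++ a :: (l2 ++ (l1 ++ V))) := by
      apply List.Perm.append_left
      rw [List.cons_append]
      apply List.Perm.cons
      rw [← List.append_assoc, ← List.append_assoc]
      exact List.perm_append_comm.append_right V
    have h2 := move1 l2 (fun b hb => h a List.mem_cons_self b hb) U (l1 ++ V)
      (hp.nodup_iff.1 hnd)
    simp only [List.append_assoc, List.cons_append, List.nil_append] at h1 h2 ⊢
    exact h1.trans h2

section fl2

variable {pos : P → ℕ} (F : Fencelike pos)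
include F

lemma case3 {x y : P} (hx : Cut pos x) (hy : Cut pos y) (hlt : pos x < pos y) (hadj : adj x y)
    (m : List P) (hnd : (x :: y :: m).Nodup) : Eqv (W (x :: y :: m)) (W (y :: x :: m)) := by
  have hxm : x ∉ m := fun h => (List.nodup_cons.1 hnd).1 (List.mem_cons_of_mem y h)
  have hym : y ∉ m := (List.nodup_cons.1 (List.nodup_cons.1 hnd).2).1
  have hposx : ∀ z ∈ m, pos z ≠ pos x := fun z hz e => hxm ((F.inj e) ▸ hz)
  have hposy : ∀ z ∈ m, pos z ≠ pos y := fun z hz e => hym ((F.inj e) ▸ hz)
  set ml := m.filter (fun z => decide (pos z < pos x)) with hml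
  set m' := m.filter (fun z => !decide (pos z < pos x)) with hm'
  set mu := m'.filter (fun z => decide (pos y < pos z)) with hmu
  set mi := m'.filter (fun z => !decide (pos y < pos z)) with hmi
  have kl : ∀ z ∈ ml, z ∈ m ∧ pos z < pos x := by
    intro z hz
    rw [hml, List.mem_filter] at hz
    exact ⟨hz.1, by simpa using hz.2⟩
  have k' : ∀ z ∈ m', z ∈ m ∧ pos x < pos z := by
    intro z hz
    rw [hm', List.mem_filter] at hz
    have h1 := hposx z hz.1
    have h2 : ¬ pos z < pos x := by simpa using hz.2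
    exact ⟨hz.1, by omega⟩
  have ku : ∀ z ∈ mu, z ∈ m ∧ pos y < pos z := by
    intro z hz
    rw [hmu, List.mem_filter] at hz
    exact ⟨(k' z hz.1).1, by simpa using hz.2⟩
  have ki : ∀ z ∈ mi, z ∈ m ∧ pos x < pos z ∧ pos z < pos y := by
    intro z hz
    rw [hmi, List.mem_filter] at hz
    have h0 := k' z hz.1
    have h1 := hposy z h0.1
    have h2 : ¬ pos y < pos z := by simpa using hz.2
    exact ⟨h0.1, h0.2, by omega⟩
  have w1 : W m = W ml * W m' := W_filter (fun z => pos z < pos x) m
    fun a ha b hb h1 h2 => hx a b h1 (by have := hposx b hb; omega)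
  have w2 : W m' = W mu * W mi := W_filter (fun z => pos y < pos z) m'
    fun a ha b hb h1 h2 h => hy b a (by have := hposy b (k' b hb).1; omega) h1 (adj_symm h)
  have cyl : Commute (τ y) (W ml) := commute_W fun z hz =>
    τ_comm fun h => hx z y (kl z hz).2 hlt (adj_symm h)
  have cxu : Commute (τ x) (W mu) := commute_W fun z hz =>
    τ_comm fun h => hy x z hlt (ku z hz).2 h
  have clu : Commute (W ml) (W mu) := commute_W fun z hz =>
    (commute_W (c := τ z) fun v hv => τ_comm fun h =>
      hx v z (kl v hv).2 (hlt.trans (ku z hz).2) (adj_symm h)).symm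
  have e1 : W (x :: y :: m) = W ((x :: ml) ++ ((y :: mu) ++ mi)) := by
    rw [W_cons, W_cons, w1, w2, W_append, W_append, W_cons, W_cons]
    calc τ x * (τ y * (W ml * (W mu * W mi))) = τ x * ((τ y * W ml) * (W mu * W mi)) := by
          simp only [mul_assoc]
      _ = τ x * ((W ml * τ y) * (W mu * W mi)) := by rw [cyl.eq]
      _ = _ := by simp only [mul_assoc]
  have e2 : W (y :: x :: m) = W ((y :: mu) ++ ((x :: ml) ++ mi)) := by
    rw [W_cons, W_cons, w1, w2, W_append, W_append, W_cons, W_cons]
    calc τ y * (τ x * (W ml * (W mu * W mi))) = τ y * (τ x * ((W ml * W mu) * W mi)) := by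
          simp only [mul_assoc]
      _ = τ y * ((τ x * W mu) * (W ml * W mi)) := by rw [clu.eq]; simp only [mul_assoc]
      _ = _ := by rw [cxu.eq]; simp only [mul_assoc]
  have hperm1 : (ml ++ m').Perm m := List.filter_append_perm _ m
  have hperm2 : (mu ++ mi).Perm m' := List.filter_append_perm _ m'
  have q : (x :: y :: m).Perm ((x :: ml) ++ ((y :: mu) ++ mi)) := by
    have q1 : (x :: y :: m).Perm (x :: y :: (ml ++ (mu ++ mi))) :=
      (((hperm2.append_left ml).trans hperm1).symm.cons y).cons x
    have q2 : (x :: y :: (ml ++ (mu ++ mi))).Perm (x :: (ml ++ (y :: (mu ++ mi)))) :=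
      (List.perm_middle.symm).cons x
    exact q1.trans q2
  have n1 := q.nodup_iff.1 hnd
  have r1 := rotate (x :: ml) ((y :: mu) ++ mi) n1
  have n2 : ((y :: mu) ++ (mi ++ ((x :: ml) ++ []))).Nodup := by
    have : ((x :: ml) ++ ((y :: mu) ++ mi)).Perm ((y :: mu) ++ (mi ++ ((x :: ml) ++ []))) := by
      rw [List.append_nil, ← List.append_assoc (y :: mu)]
      exact List.perm_append_comm
    exact this.nodup_iff.1 n1
  have r2 := move mi (x :: ml) (by
    intro a ha b hb
    obtain ⟨ham, hxa, hay⟩ := ki a ha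
    have hsa : Simplicial a := by
      rcases cut_or_simplicial F a with h | h
      · exact absurd hadj (h x y hxa hay)
      · exact h
    rcases List.mem_cons.1 hb with rfl | hb
    · by_cases h : adj a b
      · exact swappable_of fun m' hm' => (case2 F hsa h m' (by
          have : (a :: b :: m').Perm (b :: a :: m') := List.Perm.swap _ _ _
          exact this.nodup_iff.1 hm')).symm
      · exact swappable_of fun m' hm' => by
          rw [W_cons, W_cons, W_cons, W_cons, ← mul_assoc, ← mul_assoc, (τ_comm h).eq]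
          exact Eqv.refl _
    · have h : ¬ adj a b := fun h => hx b a (kl b hb).2 hxa (adj_symm h)
      exact swappable_of fun m' hm' => by
          rw [W_cons, W_cons, W_cons, W_cons, ← mul_assoc, ← mul_assoc, (τ_comm h).eq]
          exact Eqv.refl _) (y :: mu) [] n2
  rw [e1, e2]
  simp only [List.append_nil] at r2
  rw [← List.append_assoc (y :: mu) mi (x :: ml)] at r2
  exact r1.trans r2

lemma swap_all {a b : P} (hab : a ≠ b) : Swappable a b := by
  apply swappable_of
  intro m hnd
  have hnd' : (b :: a :: m).Nodup := by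
    have : (a :: b :: m).Perm (b :: a :: m) := List.Perm.swap _ _ _
    exact this.nodup_iff.1 hnd
  by_cases h : adj a b
  · rcases cut_or_simplicial F a with ha | ha
    · rcases cut_or_simplicial F b with hb | hb
      · have hne : pos a ≠ pos b := fun e => hab (F.inj e)
        rcases lt_or_gt_of_ne hne with h1 | h1
        · exact case3 F ha hb h1 h m hnd
        · exact (case3 F hb ha h1 (adj_symm h) m hnd').symm
      · exact case2 F hb (adj_symm h) m hnd
    · exact (case2 F ha h m hnd').symm
  · rw [W_cons, W_cons, W_cons, W_cons, ← mul_assoc, ← mul_assoc, (τ_comm h).eq]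
    exact Eqv.refl _

lemma perm_eqv {l1 l2 : List P} (h : l1.Perm l2) : ∀ U : List P, (U ++ l1).Nodup →
    Eqv (W (U ++ l1)) (W (U ++ l2)) := by
  induction h with
  | nil => intro U _; exact Eqv.refl _
  | cons x _ ih =>
    intro U hnd
    have := ih (U ++ [x]) (by simpa using hnd)
    simpa using this
  | swap x y l =>
    intro U hnd
    have hxy : y ≠ x := by
      intro e
      subst e
      rw [List.nodup_append] at hnd
      have := hnd.2.1
      simp at this
    exact swap_all F hxy U l hnd
  | trans h1 _ ih1 ih2 =>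
    intro U hnd
    exact (ih1 U hnd).trans (ih2 U ((h1.append_left U).nodup_iff.1 hnd))

end fl2

/-- `P` is a fence: its elements can be enumerated as `x 0, x 1, …` such that consecutive elements
form a cover (in one direction or the other) and there are no other covers. -/
def IsFence (P : Type u) [PartialOrder P] : Prop :=
  ∃ (n : ℕ) (x : Fin n ≃ P), (∀ i j : Fin n, (i : ℕ) + 1 = j → x i ⋖ x j ∨ x j ⋖ x i) ∧
    ∀ i j : Fin n, x i ⋖ x j → (i : ℕ) + 1 = j ∨ (j : ℕ) + 1 = i

section fence

variable {n : ℕ} (x : Fin n ≃ P)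

lemma steps (h2 : ∀ i j : Fin n, x i ⋖ x j → (i : ℕ) + 1 = j ∨ (j : ℕ) + 1 = i) (b : Fin n) :
    ∀ p : P, ∀ a : Fin n, x a = p → x a < x b →
      (a < b → ∀ k l : Fin n, a ≤ k → (k : ℕ) + 1 = l → l ≤ b → x k < x l) ∧
      (b < a → ∀ k l : Fin n, b ≤ k → (k : ℕ) + 1 = l → l ≤ a → x l < x k) := by
  intro p
  have wf : WellFounded ((· > ·) : P → P → Prop) := Finite.to_wellFoundedGT.wf
  induction p using wf.induction with
  | _ p ih =>
  rintro a rfl hab
  obtain ⟨c, hc, hcb⟩ := exists_covBy_le_of_lt hab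
  obtain ⟨c, rfl⟩ := x.surjective c
  have hstep := h2 a c hc
  rcases eq_or_lt_of_le hcb with he | hlt
  · have hcb' : c = b := x.injective he
    subst hcb'
    refine ⟨fun h k l hk hkl hl => ?_, fun h k l hk hkl hl => ?_⟩
    · have e1 : k = a := by
        apply Fin.ext
        have := Fin.le_def.1 hk; have := Fin.le_def.1 hl; have := Fin.lt_def.1 h
        omega
      have e2 : l = c := by
        apply Fin.ext
        have := Fin.le_def.1 hk; have := Fin.le_def.1 hl; have := Fin.lt_def.1 h
        omega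
      rw [e1, e2]; exact hab
    · have e1 : k = c := by
        apply Fin.ext
        have := Fin.le_def.1 hk; have := Fin.le_def.1 hl; have := Fin.lt_def.1 h
        omega
      have e2 : l = a := by
        apply Fin.ext
        have := Fin.le_def.1 hk; have := Fin.le_def.1 hl; have := Fin.lt_def.1 h
        omega
      rw [e1, e2]; exact hab
  · have IH := ih (x c) hc.lt c rfl hlt
    have hcb2 : c ≠ b := fun e => (e ▸ hlt).false
    have hcb3 : (c : ℕ) ≠ b := fun e => hcb2 (Fin.ext e)
    refine ⟨fun h k l hk hkl hl => ?_, fun h k l hk hkl hl => ?_⟩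
    · have q1 := Fin.le_def.1 hk
      have q2 := Fin.le_def.1 hl
      have q3 := Fin.lt_def.1 h
      rcases hstep with hs | hs
      · have hcb4 : c < b := Fin.lt_def.2 (by omega)
        by_cases hka : k = a
        · have : l = c := Fin.ext (by rw [← hkl, hka]; omega)
          rw [hka, this]
          exact hc.lt
        · have hka2 : (k : ℕ) ≠ a := fun e => hka (Fin.ext e)
          exact IH.1 hcb4 k l (Fin.le_def.2 (by omega)) hkl hl
      · exfalso
        have := IH.1 (Fin.lt_def.2 (by omega)) c a le_rfl hs h.le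
        exact lt_asymm this hc.lt
    · have q1 := Fin.le_def.1 hk
      have q2 := Fin.le_def.1 hl
      have q3 := Fin.lt_def.1 h
      rcases hstep with hs | hs
      · exfalso
        have := IH.2 (Fin.lt_def.2 (by omega)) a c h.le hs le_rfl
        exact lt_asymm this hc.lt
      · have hcb4 : b < c := Fin.lt_def.2 (by omega)
        by_cases hla : l = a
        · have : k = c := Fin.ext (by rw [hla] at hkl; omega)
          rw [hla, this]
          exact hc.lt
        · have hla2 : (l : ℕ) ≠ a := fun e => hla (Fin.ext e)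
          exact IH.2 hcb4 k l hk hkl (Fin.le_def.2 (by omega))

omit [Fintype P] in
lemma up_of_steps (a : Fin n) : ∀ (d : ℕ) (b : Fin n), (b : ℕ) = a + (d + 1) →
    (∀ k l : Fin n, a ≤ k → (k : ℕ) + 1 = l → l ≤ b → x k < x l) → x a < x b := by
  intro d
  induction d with
  | zero => intro b hb h; exact h a b le_rfl (by omega) le_rfl
  | succ d ih =>
    intro b hb h
    have hlt : (a : ℕ) + (d + 1) < n := by have := b.2; omega
    have h1 := ih ⟨a + (d + 1), hlt⟩ rfl (fun k l hk hkl hl => h k l hk hkl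
      (Fin.le_def.2 (by have := Fin.le_def.1 hl; simp only at this; omega)))
    have h2 := h ⟨a + (d + 1), hlt⟩ b (Fin.le_def.2 (by simp only; omega)) (by simp only; omega)
      le_rfl
    exact h1.trans h2

omit [Fintype P] in
lemma down_of_steps (a : Fin n) : ∀ (d : ℕ) (b : Fin n), (b : ℕ) = a + (d + 1) →
    (∀ k l : Fin n, a ≤ k → (k : ℕ) + 1 = l → l ≤ b → x l < x k) → x b < x a := by
  intro d
  induction d with
  | zero => intro b hb h; exact h a b le_rfl (by omega) le_rfl
  | succ d ih =>
    intro b hb h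
    have hlt : (a : ℕ) + (d + 1) < n := by have := b.2; omega
    have h1 := ih ⟨a + (d + 1), hlt⟩ rfl (fun k l hk hkl hl => h k l hk hkl
      (Fin.le_def.2 (by have := Fin.le_def.1 hl; simp only at this; omega)))
    have h2 := h ⟨a + (d + 1), hlt⟩ b (Fin.le_def.2 (by simp only; omega)) (by simp only; omega)
      le_rfl
    exact h2.trans h1

/-- In a fence the comparability of `x a` and `x b`, `a < b`, means that all steps between `a` and
`b` have the same direction. -/
lemma adj_iff (h2 : ∀ i j : Fin n, x i ⋖ x j → (i : ℕ) + 1 = j ∨ (j : ℕ) + 1 = i) {a b : Fin n}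
    (hab : a < b) :
    (x a < x b ↔ ∀ k l : Fin n, a ≤ k → (k : ℕ) + 1 = l → l ≤ b → x k < x l) ∧
    (x b < x a ↔ ∀ k l : Fin n, a ≤ k → (k : ℕ) + 1 = l → l ≤ b → x l < x k) := by
  have h3 := Fin.lt_def.1 hab
  obtain ⟨d, hd⟩ : ∃ d, (b : ℕ) = a + (d + 1) := ⟨b - a - 1, by omega⟩
  exact ⟨⟨fun h => (steps x h2 b (x a) a rfl h).1 hab, up_of_steps x a d b hd⟩,
    ⟨fun h => (steps x h2 a (x b) b rfl h).2 hab, down_of_steps x a d b hd⟩⟩

lemma fencelike (h2 : ∀ i j : Fin n, x i ⋖ x j → (i : ℕ) + 1 = j ∨ (j : ℕ) + 1 = i) :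
    Fencelike (fun p : P => ((x.symm p : Fin n) : ℕ)) where
  inj p q h := x.symm.injective (Fin.ext h)
  p1 u v w huv hvw h := by
    obtain ⟨u, rfl⟩ := x.surjective u
    obtain ⟨v, rfl⟩ := x.surjective v
    obtain ⟨w, rfl⟩ := x.surjective w
    simp only [Equiv.symm_apply_apply] at huv hvw
    have huv' : u < v := Fin.lt_def.2 huv
    have hvw' : v < w := Fin.lt_def.2 hvw
    rcases h with h | h
    · rw [(adj_iff x h2 (huv'.trans hvw')).1] at h
      refine ⟨Or.inl ?_, Or.inl ?_⟩
      · rw [(adj_iff x h2 huv').1]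
        exact fun k l hk hkl hl => h k l hk hkl (hl.trans hvw'.le)
      · rw [(adj_iff x h2 hvw').1]
        exact fun k l hk hkl hl => h k l (huv'.le.trans hk) hkl hl
    · rw [(adj_iff x h2 (huv'.trans hvw')).2] at h
      refine ⟨Or.inr ?_, Or.inr ?_⟩
      · rw [(adj_iff x h2 huv').2]
        exact fun k l hk hkl hl => h k l hk hkl (hl.trans hvw'.le)
      · rw [(adj_iff x h2 hvw').2]
        exact fun k l hk hkl hl => h k l (huv'.le.trans hk) hkl hl
  p4 b := by
    by_cases hc : Cut (fun p : P => ((x.symm p : Fin n) : ℕ)) b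
    · exact Or.inl hc
    right
    obtain ⟨b, rfl⟩ := x.surjective b
    unfold Cut at hc
    push Not at hc
    obtain ⟨u0, w0, hu0, hw0, h0⟩ := hc
    obtain ⟨u0, rfl⟩ := x.surjective u0
    obtain ⟨w0, rfl⟩ := x.surjective w0
    simp only [Equiv.symm_apply_apply] at hu0 hw0
    intro u w hu hw hub hbw
    obtain ⟨u, rfl⟩ := x.surjective u
    obtain ⟨w, rfl⟩ := x.surjective w
    simp only [Equiv.symm_apply_apply] at hu hw
    have hu0' : u0 < b := Fin.lt_def.2 hu0
    have hw0' : b < w0 := Fin.lt_def.2 hw0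
    have hu' : u < b := Fin.lt_def.2 hu
    have hw' : b < w := Fin.lt_def.2 hw
    -- the neighbours of `b`
    have hbn := b.2
    have hwn := w.2
    let b1 : Fin n := ⟨(b : ℕ) - 1, by omega⟩
    let b2 : Fin n := ⟨(b : ℕ) + 1, by omega⟩
    have hb1 : (b1 : ℕ) + 1 = b := by simp only [b1]; omega
    have hb2 : (b : ℕ) + 1 = b2 := rfl
    have k1 : u0 ≤ b1 := Fin.le_def.2 (by simp only [b1]; omega)
    have k2 : b2 ≤ w0 := Fin.le_def.2 (by simp only [b2]; omega)
    have k3 : u ≤ b1 := Fin.le_def.2 (by simp only [b1]; omega)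
    have k4 : b2 ≤ w := Fin.le_def.2 (by simp only [b2]; omega)
    rcases h0 with h | h
    · rw [(adj_iff x h2 (hu0'.trans hw0')).1] at h
      have s1 : x b1 < x b := h b1 b k1 hb1 hw0'.le
      have s2 : x b < x b2 := h b b2 hu0'.le hb2 k2
      have t1 : x u < x b := by
        rcases hub with h' | h'
        · exact h'
        · rw [(adj_iff x h2 hu').2] at h'
          exact absurd s1 (lt_asymm (h' b1 b k3 hb1 le_rfl))
      have t2 : x b < x w := by
        rcases hbw with h' | h'
        · exact h'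
        · rw [(adj_iff x h2 hw').2] at h'
          exact absurd s2 (lt_asymm (h' b b2 le_rfl hb2 k4))
      exact Or.inl (t1.trans t2)
    · rw [(adj_iff x h2 (hu0'.trans hw0')).2] at h
      have s1 : x b < x b1 := h b1 b k1 hb1 hw0'.le
      have s2 : x b2 < x b := h b b2 hu0'.le hb2 k2
      have t1 : x b < x u := by
        rcases hub with h' | h'
        · rw [(adj_iff x h2 hu').1] at h'
          exact absurd s1 (lt_asymm (h' b1 b k3 hb1 le_rfl))
        · exact h'
      have t2 : x w < x b := by
        rcases hbw with h' | h'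
        · rw [(adj_iff x h2 hw').1] at h'
          exact absurd s2 (lt_asymm (h' b b2 le_rfl hb2 k4))
        · exact h'
      exact Or.inr (t2.trans t1)

end fence

/-- The Coxeter elements: the products of all toggles along orderings of `P`. -/
def IsCoxeterElement (w : Equiv.Perm (AC P)) : Prop :=
  ∃ l : List P, l.Nodup ∧ (∀ x, x ∈ l) ∧ w = W l

/-- The orbit of `A` under the group generated by `w`. -/
noncomputable def orbit (w : Equiv.Perm (AC P)) (A : AC P) : Finset (AC P) :=
  Finset.univ.filter fun B => ∃ k : ℤ, (w ^ k) A = B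

/-- The sum of `f` over the orbit of `A`. -/
noncomputable def orbitSum (w : Equiv.Perm (AC P)) (f : AC P → ℝ) (A : AC P) : ℝ :=
  ∑ B ∈ orbit w A, f B

/-- `f` is `c`-mesic under the group generated by `w`. -/
def IsMesic (w : Equiv.Perm (AC P)) (f : AC P → ℝ) (c : ℝ) : Prop :=
  ∀ A, orbitSum w f A / (orbit w A).card = c

/-- `f` is orbomesic under the group generated by `w`. -/
def IsOrbomesic (w : Equiv.Perm (AC P)) (f : AC P → ℝ) : Prop :=
  ∀ A B, (orbit w A).card = (orbit w B).card → orbitSum w f A = orbitSum w f B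

/-- The linear combination `∑ λ_y χ_y`. -/
noncomputable def comb (a : P → ℝ) (A : AC P) : ℝ := ∑ y, a y * chi y A

omit [Fintype P] in
lemma pow_apply (w : Equiv.Perm (AC P)) (k : ℕ) (A : AC P) : (w ^ k) A = (⇑w)^[k] A := by
  rw [Equiv.Perm.iterate_eq_pow]

lemma period_pos (w : Equiv.Perm (AC P)) (A : AC P) : 0 < Function.minimalPeriod (⇑w) A := by
  apply Function.minimalPeriod_pos_of_mem_periodicPts
  refine ⟨orderOf w, orderOf_pos w, ?_⟩
  change (⇑w)^[orderOf w] A = A
  rw [← pow_apply, pow_orderOf_eq_one]; rfl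

lemma pow_period (w : Equiv.Perm (AC P)) (A : AC P) :
    (w ^ (Function.minimalPeriod (⇑w) A)) A = A := by
  rw [pow_apply]
  exact Function.iterate_minimalPeriod

lemma orbit_eq (w : Equiv.Perm (AC P)) (A : AC P) :
    orbit w A = (Finset.range (Function.minimalPeriod (⇑w) A)).image fun k => (w ^ k) A := by
  set m := Function.minimalPeriod (⇑w) A with hm
  have hpos : 0 < m := period_pos w A
  ext B
  simp only [orbit, Finset.mem_filter, Finset.mem_univ, true_and, Finset.mem_image,
    Finset.mem_range]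
  constructor
  · rintro ⟨k, rfl⟩
    have hk := Int.emod_nonneg k (b := (m : ℤ)) (by omega)
    have hk2 := Int.emod_lt_of_pos k (b := (m : ℤ)) (by omega)
    refine ⟨(k % m).toNat, by omega, ?_⟩
    have e : k = ((k % m).toNat : ℤ) + (m : ℤ) * (k / m) := by
      rw [Int.toNat_of_nonneg hk]
      exact (Int.emod_add_mul_ediv k m).symm
    have h1 : (w ^ (m : ℤ)) A = A := by
      rw [zpow_natCast]; exact pow_period w A
    have h2 : ∀ j : ℤ, ((w ^ (m : ℤ)) ^ j) A = A := by
      intro j
      exact Equiv.Perm.zpow_apply_eq_self_of_apply_eq_self h1 j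
    conv_rhs => rw [e, zpow_add, zpow_mul, Equiv.Perm.mul_apply, h2]
    rw [zpow_natCast]
  · rintro ⟨k, -, rfl⟩
    exact ⟨k, by rw [zpow_natCast]⟩

lemma injOn (w : Equiv.Perm (AC P)) (A : AC P) :
    Set.InjOn (fun k => (w ^ k) A)
      (Finset.range (Function.minimalPeriod (⇑w) A) : Finset ℕ) := by
  intro i hi j hj h
  have h' : (⇑w)^[i] A = (⇑w)^[j] A := by
    rw [← pow_apply, ← pow_apply]; exact h
  refine Function.iterate_injOn_Iio_minimalPeriod (f := ⇑w) (x := A) ?_ ?_ h'
  · simpa using hi
  · simpa using hj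

lemma card_orbit (w : Equiv.Perm (AC P)) (A : AC P) :
    (orbit w A).card = Function.minimalPeriod (⇑w) A := by
  rw [orbit_eq, Finset.card_image_of_injOn (injOn w A), Finset.card_range]

lemma orbitSum_eq (w : Equiv.Perm (AC P)) (f : AC P → ℝ) (A : AC P) :
    orbitSum w f A = ∑ k ∈ Finset.range (Function.minimalPeriod (⇑w) A), f ((w ^ k) A) := by
  rw [orbitSum, orbit_eq, Finset.sum_image (injOn w A)]

lemma orbitSum_comb (w : Equiv.Perm (AC P)) (a : P → ℝ) (A : AC P) :
    orbitSum w (comb a) A = ∑ y, a y * orbitSum w (chi y) A := by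
  unfold orbitSum comb
  rw [Finset.sum_comm]
  simp only [Finset.mul_sum]

/-- Orbits correspond to each other. -/
lemma Eqv.orbits {w w' : Equiv.Perm (AC P)} (h : Eqv w w') :
    ∃ h : Equiv.Perm (AC P), w' = h * w * h⁻¹ ∧ ∀ A,
      (orbit w' (h A)).card = (orbit w A).card ∧
      ∀ y, orbitSum w' (chi y) (h A) = orbitSum w (chi y) A := by
  obtain ⟨h, hw, hs⟩ := h
  have e := fun k A => conj_pow_apply hw k A
  have hper : ∀ A, Function.minimalPeriod (⇑w') (h A) = Function.minimalPeriod (⇑w) A := by
    intro A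
    apply Function.minimalPeriod_eq_minimalPeriod_iff.2
    intro k
    change (⇑w')^[k] (h A) = h A ↔ (⇑w)^[k] A = A
    rw [← pow_apply, ← pow_apply, e, h.injective.eq_iff]
  refine ⟨h, hw, fun A => ⟨by rw [card_orbit, card_orbit, hper], fun y => ?_⟩⟩
  rw [orbitSum_eq, orbitSum_eq, hper]
  simp only [e]
  exact hs _ A (pow_period w A) y

/-- Let `w` and `w'` be Coxeter elements of the toggle group of a fence. Then `w` and `w'` are
conjugate by a permutation of the antichains which gives a bijection between their orbits that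
preserves the cardinality and the sum of every `χ_y`. So a linear combination of the `χ_y` is
`c`-mesic for `w` iff it is so for `w'`, and orbomesic for `w` iff it is so for `w'`. -/
theorem result (hP : IsFence P) (w w' : Equiv.Perm (AC P)) (hw : IsCoxeterElement w)
    (hw' : IsCoxeterElement w') :
    (∃ h : Equiv.Perm (AC P), w' = h * w * h⁻¹ ∧ ∀ A,
      (orbit w' (h A)).card = (orbit w A).card ∧
      ∀ y, orbitSum w' (chi y) (h A) = orbitSum w (chi y) A) ∧
    ∀ a : P → ℝ, (∀ c : ℝ, IsMesic w (comb a) c ↔ IsMesic w' (comb a) c) ∧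
      (IsOrbomesic w (comb a) ↔ IsOrbomesic w' (comb a)) := by
  obtain ⟨l, hl, hl2, rfl⟩ := hw
  obtain ⟨l', hl', hl2', rfl⟩ := hw'
  obtain ⟨n, x, -, hx⟩ := hP
  have hperm : l.Perm l' := (List.perm_ext_iff_of_nodup hl hl').2 fun a =>
    ⟨fun _ => hl2' a, fun _ => hl2 a⟩
  have hE : Eqv (W l) (W l') := perm_eqv (fencelike x hx) hperm [] hl
  have hO := hE.orbits
  refine ⟨hO, fun a => ?_⟩
  obtain ⟨h, -, hh⟩ := hO
  have hc : ∀ A, orbitSum (W l') (comb a) (h A) = orbitSum (W l) (comb a) A := by
    intro A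
    rw [orbitSum_comb, orbitSum_comb]
    exact Finset.sum_congr rfl fun y _ => by rw [(hh A).2 y]
  refine ⟨fun c => ⟨fun H A => ?_, fun H A => ?_⟩, ⟨fun H A B => ?_, fun H A B => ?_⟩⟩
  · obtain ⟨A, rfl⟩ := h.surjective A
    rw [hc, (hh A).1]
    exact H A
  · rw [← hc, ← (hh A).1]
    exact H (h A)
  · obtain ⟨A, rfl⟩ := h.surjective A
    obtain ⟨B, rfl⟩ := h.surjective B
    rw [hc, hc, (hh A).1, (hh B).1]
    exact H A B
  · rw [← hc, ← hc, ← (hh A).1, ← (hh B).1]
    exact H (h A) (h B)

end Pool.Agent.Results.MP_caa0a9_co.CoxeterIndependence
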